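import Pool.Agent.H3.PowExpMain

/-! # `MP_9b3446_nt`: `w_{kn}(ξ) = w_n(ξ^k) + δ` and the same for `w^*`, for every `δ ≥ 0` -/

namespace Pool.Agent.Results.MP_9b3446_nt.AllDelta

open Pool.Agent.H3.PowExp
open scoped NNReal ENNReal

/-- For all `n ≥ 1`, `k ≥ 2` and real `δ ≥ 0` there is a real transcendental `ξ` with
`w_{kn}(ξ) = w_n(ξ^k) + δ` and `w_{kn}^*(ξ) = w_n^*(ξ^k) + δ`, all four exponents being finite. -/
theorem result (n k : ℕ) (hn : 1 ≤ n) (hk : 2 ≤ k) (δ : ℝ≥0) :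
    ∃ ξ : ℝ, Transcendental ℤ ξ ∧ ∃ u : ℝ≥0,
      wExp n (ξ ^ k) = u ∧ wExp (k * n) ξ = (u + δ : ℝ≥0) ∧
      wStar n (ξ ^ k) = u ∧ wStar (k * n) ξ = (u + δ : ℝ≥0) :=
  main n k hn hk δ

end Pool.Agent.Results.MP_9b3446_nt.AllDelta
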